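import Pool.Agent.R598.NambaMain

/-!
# Under CH, Laver-like Namba forcing adds no cofinal branch to a ground-model omega_1-tree
-/

namespace Pool.Agent.Results.MP_096ca0_lc.LaverNambaNoNewBranch

open Cardinal Set Pool.Agent.R598.Nm

/-- The set of nodes of `T` on level `α`: those whose set of strict predecessors is order
isomorphic to the ordinal `α`. -/
def level (T : Type) [PartialOrder T] (α : Ordinal.{0}) : Set T :=
  {t | Nonempty ({s : T // s < t} ≃o Set.Iio α)}

/-- `T` is an `ω₁`-tree: the strict predecessors of every node are well ordered in a countable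
order type (an ordinal below `ω₁`), and each level `α < ω₁` is nonempty and countable. -/
structure IsOmegaOneTree (T : Type) [PartialOrder T] : Prop where
  node : ∀ t : T, ∃ α < Ordinal.omega 1, t ∈ level T α
  nonempty : ∀ α < Ordinal.omega 1, (level T α).Nonempty
  countable : ∀ α < Ordinal.omega 1, (level T α).Countable

/-- The index set `ω₂` (as a type of ordinals below `ω₂`). -/
abbrev W2 : Type := (Ordinal.omega.{0} 2).ToType

/-- The Laver-like Namba forcing `Nm'`: nonempty trees of finite sequences of elements of `ω₂`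
with a stem `s` such that every node extending `s` has `ℵ₂` many immediate successors. -/
structure LaverNamba where
  carrier : Set (List W2)
  down : ∀ t u, u ∈ carrier → t <+: u → t ∈ carrier
  stem : ∃ s ∈ carrier, (∀ t ∈ carrier, t <+: s ∨ s <+: t) ∧
    ∀ t ∈ carrier, s <+: t → #({x | t ++ [x] ∈ carrier} : Set W2) = ℵ_ 2

/-- `q ≤ p` iff `q ⊆ p`. -/
instance : PartialOrder LaverNamba where
  le q p := q.carrier ⊆ p.carrier
  le_refl _ := subset_rfl
  le_trans _ _ _ h1 h2 := Set.Subset.trans h1 h2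
  le_antisymm := by
    rintro ⟨a, ha, ha'⟩ ⟨b, hb, hb'⟩ h1 h2
    have : a = b := Set.Subset.antisymm h1 h2
    subst this
    rfl

section Forcing

variable {P T : Type} [PartialOrder P] [PartialOrder T]

/-- `p` forces `v ∈ τ`, for a name `τ` for a subset of `T` (a set of pairs `(v, r)`). -/
def ForcesMem (τ : Set (T × P)) (p : P) (v : T) : Prop :=
  ∀ q ≤ p, ∃ r ≤ q, ∃ r', r ≤ r' ∧ (v, r') ∈ τ

/-- `p` forces that `τ` is a cofinal branch of `T`: linearly ordered, downward closed, and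
meeting every level below `ω₁`. -/
def ForcesCofinalBranch (τ : Set (T × P)) (p : P) : Prop :=
  (∀ q ≤ p, ∀ v w, ForcesMem τ q v → ForcesMem τ q w → v ≤ w ∨ w ≤ v) ∧
  (∀ q ≤ p, ∀ v w, v ≤ w → ForcesMem τ q w → ForcesMem τ q v) ∧
  (∀ α < Ordinal.omega 1, ∀ q ≤ p, ∃ r ≤ q, ∃ v ∈ level T α, ForcesMem τ r v)

/-- `p` forces `τ = b` for a ground-model set `b`. -/
def ForcesEqGround (τ : Set (T × P)) (p : P) (b : Set T) : Prop :=
  (∀ v ∈ b, ForcesMem τ p v) ∧ ∀ v ∉ b, ∀ q ≤ p, ¬ ForcesMem τ q v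

variable (P T) in
/-- Forcing with `P` adds a cofinal branch to `T`: some condition forces, of some name, that it is
a cofinal branch of `T` which is not in the ground model. -/
def AddsCofinalBranch : Prop :=
  ∃ (τ : Set (T × P)) (p : P), ForcesCofinalBranch τ p ∧
    ∀ q ≤ p, ∀ b : Set T, ¬ ForcesEqGround τ q b

end Forcing

theorem level_lt {T : Type} [PartialOrder T] {v w : T} {α β : Ordinal.{0}}
    (hv : v ∈ level T α) (hw : w ∈ level T β) (h : v < w) : α < β := by
  obtain ⟨e⟩ := hv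
  obtain ⟨f⟩ := hw
  have h1 : Nonempty ({s : T // s < v} ≃o Set.Iio (f ⟨v, h⟩).1) := by
    refine ⟨⟨⟨fun s => ⟨(f ⟨s.1, s.2.trans h⟩).1, ?_⟩,
      fun γ => ⟨(f.symm ⟨γ.1, lt_trans (Set.mem_Iio.1 γ.2) (Set.mem_Iio.1 (f ⟨v, h⟩).2)⟩).1, ?_⟩, ?_, ?_⟩, ?_⟩⟩
    · have : (⟨s.1, s.2.trans h⟩ : {s : T // s < w}) < ⟨v, h⟩ := s.2
      exact f.lt_iff_lt.2 this
    · have h2 : f.symm ⟨γ.1, lt_trans (Set.mem_Iio.1 γ.2) (Set.mem_Iio.1 (f ⟨v, h⟩).2)⟩ <
          ⟨v, h⟩ := by
        rw [← f.lt_iff_lt, f.apply_symm_apply]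
        exact γ.2
      exact h2
    · intro s
      have : f.symm (f ⟨s.1, s.2.trans h⟩) = ⟨s.1, s.2.trans h⟩ := f.symm_apply_apply _
      exact Subtype.ext (congrArg (fun z : {s : T // s < w} => z.1) this)
    · intro γ
      simp
    · intro s t
      exact f.le_iff_le
  obtain ⟨g⟩ := h1
  have h2 : Nonempty (Set.Iio α ≃o Set.Iio (f ⟨v, h⟩).1) := ⟨e.symm.trans g⟩
  have h3 : α = (f ⟨v, h⟩).1 := by
    obtain ⟨k⟩ := h2
    have h4 : Ordinal.type (α := Set.Iio α) (· < ·) =
        Ordinal.type (α := Set.Iio (f ⟨v, h⟩).1) (· < ·) :=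
      Ordinal.type_eq.2 ⟨k.toRelIsoLT⟩
    rw [Ordinal.type_lt_Iio, Ordinal.type_lt_Iio] at h4
    exact Ordinal.lift_inj.1 h4
  rw [h3]
  exact (f ⟨v, h⟩).2

theorem LaverNamba.isNm (p : LaverNamba) : ∃ s, IsNm p.carrier s := by
  obtain ⟨s, hs, h1, h2⟩ := p.stem
  exact ⟨s, p.down, hs, h1, h2⟩

/-- Build a condition. -/
def mkCond {r : Set (List W2)} {s : List W2} (h : IsNm r s) : LaverNamba :=
  ⟨r, h.down, s, h.mem, h.comp, h.succ⟩

/-- **Theorem.** Assume CH. Then forcing with the Laver-like Namba forcing adds no new cofinal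
branch to any `ω₁`-tree of the ground model. -/
theorem result (hCH : (𝔠 : Cardinal.{0}) = ℵ_ 1) (T : Type) [PartialOrder T]
    (hT : IsOmegaOneTree T) : ¬ AddsCofinalBranch LaverNamba T := by
  rintro ⟨τ, p, ⟨hch, hdn, hcof⟩, hnew⟩
  have hΩ : #W2 = ℵ_ 2 := by
    rw [Cardinal.mk_toType, Ordinal.card_omega]
  choose ht hht1 hht2 using hT.node
  have hlev : ∀ α v, v ∈ level T α → ht v = α := by
    intro α v hv
    obtain ⟨e⟩ := hv
    obtain ⟨f⟩ := hht2 v
    have h4 : Ordinal.type (α := Set.Iio (ht v)) (· < ·) =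
        Ordinal.type (α := Set.Iio α) (· < ·) :=
      Ordinal.type_eq.2 ⟨(f.symm.trans e).toRelIsoLT⟩
    rw [Ordinal.type_lt_Iio, Ordinal.type_lt_Iio] at h4
    exact Ordinal.lift_inj.1 h4
  let D : BrData W2 T p.carrier :=
    { F := fun r v => ∀ q : LaverNamba, q.carrier ⊆ r → ∃ r1 ≤ q, ∃ r', r1 ≤ r' ∧ (v, r') ∈ τ
      ht := ht
      mono := fun r r' v hr h q hq => h q (hq.trans hr)
      reg := by
        intro r s v hr h q hq
        obtain ⟨s', hs'⟩ := q.isNm
        obtain ⟨r'', s'', h1, h2, h3⟩ := h q.carrier s' hq hs'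
        obtain ⟨r1, hr1, r', hr', hm⟩ := h3 (mkCond h2) subset_rfl
        exact ⟨r1, hr1.trans h1, r', hr', hm⟩
      chain := fun r s v w hr hrp hv hw => hch (mkCond hr) hrp v w hv hw
      down := fun r s v w hr hrp hvw hw => hdn (mkCond hr) hrp v w hvw hw
      htmono := fun v w h => level_lt (hht2 v) (hht2 w) h
      htlt := hht1
      htct := by
        intro α
        by_cases hα : α < Ordinal.omega 1
        · refine (hT.countable α hα).mono ?_
          intro v hv
          have hv' : ht v = α := hv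
          rw [← hv']
          exact hht2 v
        · convert Set.countable_empty
          ext v
          simp only [Set.mem_ofPred_eq, Set.mem_empty_iff_false, iff_false]
          intro h
          exact hα (h ▸ hht1 v)
      cof := by
        intro α hα r s hr hrp
        obtain ⟨r', hr', v, hv, hF⟩ := hcof α hα (mkCond hr) hrp
        obtain ⟨s', hs'⟩ := r'.isNm
        exact ⟨r'.carrier, s', v, hr', hs', hlev α v hv, hF⟩ }
  have hT1 : #T ≤ ℵ_ 1 := by
    have hcov : (Set.univ : Set T) = ⋃ α : (Ordinal.omega.{0} 1).ToType,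
        level T (Ordinal.ToType.toOrd α).1 := by
      ext v
      simp only [Set.mem_univ, Set.mem_iUnion, true_iff]
      refine ⟨Ordinal.ToType.mk ⟨ht v, hht1 v⟩, ?_⟩
      simpa using hht2 v
    rw [← Cardinal.mk_univ, hcov]
    refine Cardinal.mk_iUnion_le_sum_mk.trans ?_
    refine (Cardinal.sum_le_sum _ (fun _ => ℵ₀) ?_).trans ?_
    · intro α
      exact (hT.countable _ (Ordinal.ToType.toOrd α).2).le_aleph0
    · rw [Cardinal.sum_const]
      simp only [Cardinal.lift_id]
      rw [Cardinal.mk_toType, Ordinal.card_omega]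
      calc ℵ_ 1 * ℵ₀ ≤ ℵ_ 1 * ℵ_ 1 := mul_le_mul_right (Cardinal.aleph0_le_aleph 1) _
        _ = ℵ_ 1 := Cardinal.mul_eq_self (Cardinal.aleph0_le_aleph 1)
  obtain ⟨s0, hp0⟩ := p.isNm
  obtain ⟨q, hqp, t, hq, hBT⟩ := D.exists_branchType hΩ hT1 hCH hp0
  obtain ⟨q', hq'q, hq', h1, h2⟩ := D.of_branchType hΩ hT1 hq hqp hBT
  refine hnew (mkCond hq') (hq'q.trans hqp) {v | D.PD q t v} ⟨fun v hv => h1 v hv, ?_⟩
  intro v hv r hr hF
  obtain ⟨s', hs'⟩ := r.isNm
  exact h2 v hv r.carrier s' hr hs' hF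

end Pool.Agent.Results.MP_096ca0_lc.LaverNambaNoNewBranch
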